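import Pool.Agent.W566.MZ.Stmts

/-!
The Krull dimension of `R / p R` is at least two (part DIM).
-/

set_option autoImplicit false
set_option linter.all false
set_option maxHeartbeats 1000000

open PowerSeries

namespace Pool.Agent.W313.MZDim

section complete

variable {k : Type} [Field k]

theorem smod_iff (m : ℕ) (x y : PowerSeries k) :
    x ≡ y [SMOD (IsLocalRing.maximalIdeal (PowerSeries k) ^ m •
      (⊤ : Submodule (PowerSeries k) (PowerSeries k)))] ↔ (X : PowerSeries k) ^ m ∣ x - y := by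
  rw [SModEq.sub_mem, smul_eq_mul, Ideal.mul_top, maximalIdeal_eq_span_X,
    Ideal.span_singleton_pow, Ideal.mem_span_singleton]

theorem adic_complete : IsAdicComplete (IsLocalRing.maximalIdeal (PowerSeries k)) (PowerSeries k) where
  haus' := by
    intro x hx
    ext n
    have h := (smod_iff (n + 1) x 0).1 (hx (n + 1))
    rw [sub_zero] at h
    rw [map_zero]
    exact X_pow_dvd_iff.1 h n (Nat.lt_succ_self n)
  prec' := by
    intro f hf
    refine ⟨PowerSeries.mk fun n => coeff n (f (n + 1)), fun n => ?_⟩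
    rw [smod_iff, X_pow_dvd_iff]
    intro m hm
    rw [map_sub, coeff_mk, sub_eq_zero]
    have h := (smod_iff (m + 1) _ _).1 (hf (m := m + 1) (n := n) hm)
    have h2 := X_pow_dvd_iff.1 h m (Nat.lt_succ_self m)
    rw [map_sub, sub_eq_zero] at h2
    exact h2.symm

end complete

section ring

variable (p : ℕ) [Fact p.Prime] (k : Type) [Field k] [CharP k p]

/-- the power series ring as a coefficient ring -/
noncomputable def A0 : MZ.CNL p k where
  A := PowerSeries k
  complete := adic_complete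
  alg := ((PowerSeries.C (R := k)).comp WittVector.constantCoeff).toAlgebra
  res := PowerSeries.constantCoeff
  res_surj := fun a => ⟨PowerSeries.C a, PowerSeries.constantCoeff_C a⟩
  res_coeff := fun x => PowerSeries.constantCoeff_C _

end ring

theorem stmDim : MZ.StmDim := by
  intro p _ k _ _ _ G _ _ _ n ρbar g₁ g₂ s₁ s₂ hs₁ hs₂ hρ R ρu hR
  have hf : ∀ j : ℕ, 2 ≤ j → ∃ f : R.A →+* PowerSeries k,
      (∀ w : WittVector p k, f (algebraMap (WittVector p k) R.A w) = C (w.coeff 0)) ∧
      f ((ρu g₁ : Matrix (Fin n) (Fin n) R.A).trace) =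
        C ((ρbar g₁ : Matrix (Fin n) (Fin n) k).trace) + C s₁ * X ∧
      f ((ρu g₂ : Matrix (Fin n) (Fin n) R.A).trace) =
        C ((ρbar g₂ : Matrix (Fin n) (Fin n) k).trace) + C s₂ * X ^ j := by
    intro j hj
    obtain ⟨ρ, h1, h2, h3, h4⟩ := hρ j hj
    have hlift : MZ.IsLift ρbar (A0 p k) ρ := by
      refine ⟨h1, fun m => ?_⟩
      have h5 := h2 m
      have h6 : {g : G | ∀ a b : Fin n,
          ((ρ g : Matrix (Fin n) (Fin n) (PowerSeries k)) - 1) a b ∈
            IsLocalRing.maximalIdeal (PowerSeries k) ^ m} =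
          {g : G | ∀ a b : Fin n, (PowerSeries.X : PowerSeries k) ^ m ∣
            ((ρ g : Matrix (Fin n) (Fin n) (PowerSeries k)) - 1) a b} := by
        ext g
        simp only [Set.mem_setOf_eq]
        refine forall_congr' fun a => forall_congr' fun b => ?_
        rw [maximalIdeal_eq_span_X, Ideal.span_singleton_pow, Ideal.mem_span_singleton]
      rw [← h6] at h5
      exact h5
    obtain ⟨f, ⟨-, M, -, hM⟩, -⟩ := hR.2 (A0 p k) ρ hlift
    let ρ' : G →* GL (Fin n) (A0 p k).A := ρ
    have htr : ∀ g, ((ρ g : Matrix (Fin n) (Fin n) (PowerSeries k))).trace =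
        f ((ρu g : Matrix (Fin n) (Fin n) R.A).trace) := by
      intro g
      have h5 : ρ' g = _ := hM g
      have h6 : (ρ' g : Matrix (Fin n) (Fin n) (A0 p k).A) =
          (M : Matrix (Fin n) (Fin n) (A0 p k).A) *
          ((ρu g : Matrix (Fin n) (Fin n) R.A).map f) *
          ((M⁻¹ : GL (Fin n) (A0 p k).A) : Matrix (Fin n) (Fin n) (A0 p k).A) := by
        rw [h5]
        rfl
      have h7 : ((ρ' g : Matrix (Fin n) (Fin n) (A0 p k).A)).trace =
          ((ρu g : Matrix (Fin n) (Fin n) R.A).map f).trace := by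
        rw [h6, Matrix.trace_mul_comm, ← mul_assoc]
        have h8 : ((M⁻¹ : GL (Fin n) (A0 p k).A) : Matrix (Fin n) (Fin n) (A0 p k).A) *
            (M : Matrix (Fin n) (Fin n) (A0 p k).A) = 1 := by
          rw [← Units.val_mul, inv_mul_cancel, Units.val_one]
        rw [h8, one_mul]
      have h9 : ((ρu g : Matrix (Fin n) (Fin n) R.A).map f).trace =
          f ((ρu g : Matrix (Fin n) (Fin n) R.A).trace) := by
        rw [Matrix.trace, Matrix.trace, map_sum]
        rfl
      exact h7.trans h9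
    refine ⟨(f : R.A →+* (A0 p k).A), fun w => ?_, ?_, ?_⟩
    · exact f.commutes w
    · rw [← h3]
      exact (htr g₁).symm
    · rw [← h4]
      exact (htr g₂).symm
  have hne : Nonempty (R.A →+* PowerSeries k) := ⟨(hf 2 le_rfl).choose⟩
  choose! f hfw hf1 hf2 using hf
  -- Teichmueller lifts
  let br : k → R.A := fun a => algebraMap (WittVector p k) R.A (WittVector.teichmuller p a)
  have hbr : ∀ j, 2 ≤ j → ∀ a, f j (br a) = C a := by
    intro j hj a
    show f j (algebraMap (WittVector p k) R.A (WittVector.teichmuller p a)) = C a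
    rw [hfw j hj, WittVector.teichmuller_coeff_zero]
  let t1 : R.A := (ρu g₁ : Matrix (Fin n) (Fin n) R.A).trace -
    br ((ρbar g₁ : Matrix (Fin n) (Fin n) k).trace)
  let t2 : R.A := (ρu g₂ : Matrix (Fin n) (Fin n) R.A).trace -
    br ((ρbar g₂ : Matrix (Fin n) (Fin n) k).trace)
  have ht1 : ∀ j, 2 ≤ j → f j t1 = C s₁ * X := by
    intro j hj
    show f j (_ - _) = _
    rw [map_sub, hf1 j hj, hbr j hj, add_sub_cancel_left]
  have ht2 : ∀ j, 2 ≤ j → f j t2 = C s₂ * X ^ j := by
    intro j hj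
    show f j (_ - _) = _
    rw [map_sub, hf2 j hj, hbr j hj, add_sub_cancel_left]
  have hfp : ∀ j, 2 ≤ j → f j (p : R.A) = 0 := by
    intro j hj
    rw [map_natCast]
    have h1 : ((p : ℕ) : PowerSeries k) = C ((p : ℕ) : k) := (map_natCast (C (R := k)) p).symm
    rw [h1, CharP.cast_eq_zero, map_zero]
  -- the primes
  let I : Ideal R.A := Ideal.span {(p : R.A)}
  have hI : ∀ j, 2 ≤ j → ∀ a ∈ I, f j a = 0 := by
    intro j hj a ha
    obtain ⟨c, rfl⟩ := Ideal.mem_span_singleton.1 ha
    rw [map_mul, hfp j hj, zero_mul]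
  let Q : ℕ → Ideal (R.A ⧸ I) := fun i =>
    RingHom.ker (Ideal.Quotient.lift I (f (i + 2)) (hI (i + 2) (by omega)))
  have hmemQ : ∀ i (a : R.A), Ideal.Quotient.mk I a ∈ Q i ↔ f (i + 2) a = 0 := by
    intro i a
    show Ideal.Quotient.lift I (f (i + 2)) (hI (i + 2) (by omega)) (Ideal.Quotient.mk I a) = 0 ↔ _
    rw [Ideal.Quotient.lift_mk]
  have hprime : ∀ i, (Q i).IsPrime := fun i => RingHom.ker_isPrime _
  have hX : ∀ c : k, c ≠ 0 → ∀ j, (C c * X ^ j : PowerSeries k) ≠ 0 := by
    intro c hc j h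
    have h1 := congrArg (coeff j) h
    rw [coeff_C_mul, coeff_X_pow_self, mul_one, map_zero] at h1
    exact hc h1
  have hnotmax : ∀ i, ¬ (Q i).IsMaximal := by
    intro i hi
    have h1 : ((Q i).comap (Ideal.Quotient.mk I)).IsMaximal :=
      Ideal.comap_isMaximal_of_surjective _ Ideal.Quotient.mk_surjective
    have h2 := IsLocalRing.eq_maximalIdeal h1
    have h3 : t1 ∈ IsLocalRing.maximalIdeal R.A := by
      rw [IsLocalRing.mem_maximalIdeal, mem_nonunits_iff]
      intro hu
      have h4 := hu.map (f 2)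
      rw [ht1 2 le_rfl] at h4
      have h5 := h4.map (constantCoeff (R := k))
      rw [map_mul, constantCoeff_X, mul_zero] at h5
      exact not_isUnit_zero h5
    rw [← h2, Ideal.mem_comap, hmemQ, ht1 (i + 2) (by omega)] at h3
    have h6 := hX s₁ hs₁ 1
    rw [pow_one] at h6
    exact h6 h3
  have hinj : Function.Injective Q := by
    intro i j hij
    by_contra hne
    let e : R.A := t2 - br (s₂ / s₁ ^ (j + 2)) * t1 ^ (j + 2)
    have h1 : ∀ l, 2 ≤ l → f l e = C s₂ * X ^ l - C s₂ * X ^ (j + 2) := by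
      intro l hl
      show f l (t2 - br (s₂ / s₁ ^ (j + 2)) * t1 ^ (j + 2)) = _
      rw [map_sub, ht2 l hl, map_mul, map_pow, hbr l hl, ht1 l hl, mul_pow, ← map_pow, ← mul_assoc,
        ← map_mul, div_mul_cancel₀ _ (pow_ne_zero _ hs₁)]
    have h2 : Ideal.Quotient.mk I e ∈ Q j := by
      rw [hmemQ, h1 (j + 2) (by omega), sub_self]
    rw [← hij, hmemQ, h1 (i + 2) (by omega)] at h2
    have h3 := congrArg (coeff (i + 2)) h2
    rw [map_sub, coeff_C_mul, coeff_C_mul, coeff_X_pow_self, coeff_X_pow, if_neg (by omega), mul_one,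
      mul_zero, sub_zero, map_zero] at h3
    exact hs₂ h3
  by_contra hlt
  push Not at hlt
  have h1 : Ring.KrullDimLE 1 (R.A ⧸ I) := by
    rw [Ring.krullDimLE_iff]
    exact ENat.WithBot.lt_add_one_iff.1 (by simpa [one_add_one_eq_two] using hlt)
  have h2 := Ring.krullDimLE_one_iff.1 h1
  have h3 : ∀ i, Q i ∈ minimalPrimes (R.A ⧸ I) := fun i =>
    (h2 (Q i) (hprime i)).resolve_right (hnotmax i)
  have hfin : (minimalPrimes (R.A ⧸ I)).Finite := minimalPrimes.finite_of_isNoetherianRing _
  exact Set.infinite_range_of_injective hinj (hfin.subset (by rintro _ ⟨i, rfl⟩; exact h3 i))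

end Pool.Agent.W313.MZDim
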